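import Pool.Agent.K6.H97.AE.Asm
import Pool.Agent.K6.H97.AE.AL2
import Pool.Agent.K6.H97.AE.ALG
import Pool.Agent.K6.H97.AE.Bm
import Pool.Agent.K6.H97.AE.C3
import Pool.Agent.K6.H97.AE.DS2
import Pool.Agent.K6.H97.AE.DSG
import Pool.Agent.K6.H97.AE.Def
import Pool.Agent.K6.H97.AE.Idl
import Pool.Agent.K6.H97.AE.KL
import Pool.Agent.K6.H97.AE.Nrm
import Pool.Agent.K6.H97.AE.POS
import Pool.Agent.K6.H97.AE.QUO
import Pool.Agent.K6.H97.AE.REL
import Pool.Agent.K6.H97.AE.Rot
import Pool.Agent.K6.H97.AE.SYM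
import Pool.Agent.K6.H97.AE.CPT

set_option autoImplicit false

namespace Pool.Agent.Results.MP_9667ca_an.EvenDimensions

open Pool.Agent.Helper547.Alpha
open Pool.Agent.K6.H97.AE
open Pool.Agent.Results.MP_9667ca_an.OddDimensions (alphaN)

/-- no space of even dimension attains the general upper bound -/
theorem even_space (n : ℕ) (hn : 1 ≤ n) (he : Even n) (E : Type) [NormedAddCommGroup E]
    [NormedSpace ℂ E] [FiniteDimensional ℂ E] (hE : Module.finrank ℂ E = n) :
    alpha E < ((n : ℝ) + 1) / 2 :=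
  a_space (fun n hn he => a_even (t_KL (t_DEF t_DSG t_DS2 t_POS) t_ROT)
    (t_C3 (t_KL (t_DEF t_DSG t_DS2 t_POS) t_ROT) t_SYM) t_IDL t_REL (t_AL2 t_ALG) t_QUO t_NRM
    n hn he) n hn he E hE

theorem even_sup (n : ℕ) (hn : 1 ≤ n) (he : Even n) : alphaN n < ((n : ℝ) + 1) / 2 := by
  obtain ⟨E, i1, i2, i3, hE, hα⟩ := a_att t_BM t_CPT n hn
  rw [← hα]
  exact even_space n hn he E hE

/-- For every `n ≥ 1`, `α(n) = (n+1)/2` exactly when `n` is odd. For `n = 2m` even,
`√(m(m+1)) ≤ α(ℓ₂ⁿ)`, and `α(E) ≤ α(n) < m + 1/2` for every `n`-dimensional `E`. -/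
theorem result :
    (∀ n : ℕ, 1 ≤ n → (alphaN n = ((n : ℝ) + 1) / 2 ↔ Odd n)) ∧
    (∀ m : ℕ, 1 ≤ m →
      Real.sqrt ((m : ℝ) * ((m : ℝ) + 1)) ≤ alpha (EuclideanSpace ℂ (Fin (2 * m))) ∧
      (∀ (E : Type) [NormedAddCommGroup E] [NormedSpace ℂ E] [FiniteDimensional ℂ E],
        Module.finrank ℂ E = 2 * m → alpha E ≤ alphaN (2 * m)) ∧
      alphaN (2 * m) < (m : ℝ) + 1 / 2) := by
  constructor
  · intro n hn
    constructor
    · intro h
      by_contra hodd
      rw [Nat.not_odd_iff_even] at hodd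
      exact absurd h (even_sup n hn hodd).ne
    · intro h
      exact ((Pool.Agent.Results.MP_9667ca_an.OddDimensions.result.1 n h).1)
  · intro m hm
    refine ⟨?_, ?_, ?_⟩
    · have h := lower_fock (2 * m) m (by omega)
      refine le_trans (le_of_eq ?_) h
      congr 1
      push_cast
      ring
    · intro E _ _ _ hE
      exact Pool.Agent.Results.MP_9667ca_an.OddDimensions.le_alphaN (2 * m) E hE
    · have h := even_sup (2 * m) (by omega) (even_two_mul m)
      refine h.trans_eq ?_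
      push_cast
      ring

end Pool.Agent.Results.MP_9667ca_an.EvenDimensions
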